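import Pool.Agent.Helper91.ZC.FinalHyp

/-!
# Zero-cycles on complete intersections over global function fields: assembly from the
equivalence of points (Helper89, row E of PROJECT BD)
-/

set_option autoImplicit false

open MvPolynomial

namespace ZC

universe u

variable {F k : Type u} [Field F] [Field k] [Algebra F k]

/-- The local-global complex for zero-cycles on complete intersections, assembled from the
equivalence of the points over finite extensions of `k` and of its completions. -/
theorem main_ci_of_equiv [Finite F] (hk : IsCurveField F k) {n r : ℕ} (X : ProjVar k n r)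
    (hd : ∀ i, 0 < X.d i) (hn : ∑ i, X.d i ^ 2 ≤ n)
    (hE : ∀ (L : Type u) [Field L] [Algebra k L] [FiniteDimensional k L]
      (x y : Fin (n + 1) → L) (hx : X.IsPt x) (hy : X.IsPt y),
      ptCycle X x hx - ptCycle X y hy ∈ ratEquiv X)
    (hEv : ∀ (v : Place F k) (L : Type u) [Field L] [Algebra v.Completion L]
      [FiniteDimensional v.Completion L] (x y : Fin (n + 1) → L)
      (hx : (X.map v.emb).IsPt x) (hy : (X.map v.emb).IsPt y),
      ptCycle (X.map v.emb) x hx - ptCycle (X.map v.emb) y hy ∈ ratEquiv (X.map v.emb)) :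
    ∃ (x : Fin (n + 1) → k) (hx : X.IsPt x),
      (∀ c : CH0 X, c = CH0.deg X c • cls X x hx) ∧
      (∀ (v : Place F k) (c : CH0 (X.map v.emb)), c = CH0.deg _ c •
        cls (X.map v.emb) (fun i => v.emb (x i)) (isPt_map X v.emb hx)) ∧
      ∀ z : ∀ v : Place F k, ℕ → CH0 (X.map v.emb), (∀ v, IsCompat (z v)) →
        (∀ (f : k) (m : ℕ), f ≠ 0 → 0 < m → ∑ᶠ v : Place F k, constPairing v (z v m) f m = 0) →
        ∃ c : ℕ → ℤ, IsCompat c ∧ ∀ (v : Place F k) (m : ℕ), 0 < m →
          ∃ g, c m • cls (X.map v.emb) (fun i => v.emb (x i)) (isPt_map X v.emb hx) - z v m =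
            m • g := by
  obtain ⟨x, hx⟩ := exists_point hk.c2 X hd hn
  have key : ∀ {K : Type u} [Field K] (Y : ProjVar K n r) (y : Fin (n + 1) → K) (hy : Y.IsPt y),
      (∀ c : CH0 Y, ∃ m : ℤ, c = m • cls Y y hy) → ∀ c : CH0 Y, c = CH0.deg Y c • cls Y y hy := by
    intro K _ Y y hy hg c
    obtain ⟨m, rfl⟩ := hg c
    rw [map_zsmul, CH0.deg_cls, smul_eq_mul, mul_one]
  have hgenv : ∀ (v : Place F k) (c : CH0 (X.map v.emb)),
      ∃ m : ℤ, c = m • cls (X.map v.emb) (fun i => v.emb (x i)) (isPt_map X v.emb hx) :=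
    fun v c => CH0_gen_of (X.map v.emb) (fun L _ _ _ => hEv v L) _ _ c
  exact ⟨x, hx, key X x hx fun c => CH0_gen_of X (fun L _ _ _ => hE L) x hx c,
    fun v => key _ _ _ (hgenv v), fun z hz horth => main_of_gen hk X x hx hgenv z hz horth⟩

end ZC
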