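import Pool.Agent.Helper89.BC.Assembly
import Pool.Agent.Helper15.BDX.Seg

/-!
# Zero-cycles on complete intersections over global function fields: assembly from chains of
rational curves (Helper89, row E of PROJECT BD)
-/

set_option autoImplicit false

open MvPolynomial

namespace ZC

universe u

/-- Any two `L`-points of a variety given by forms of degrees `d` are joined by chains of rational
curves over extensions of `L` of degree prime to `l`, for every prime `l`. -/
def Linkable (L : Type u) [Field L] {r : ℕ} (n : ℕ) (d : Fin r → ℕ) : Prop :=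
  ∀ X : ProjVar L n r, X.d = d → ∀ x y : Fin (n + 1) → L, X.IsPt x → X.IsPt y →
    ∀ l : ℕ, l.Prime → ∃ (M : Type u) (_ : Field M) (_ : Algebra L M)
      (_ : FiniteDimensional L M), (Module.finrank L M).Coprime l ∧
      Chained X (fun i => algebraMap L M (x i)) fun i => algebraMap L M (y i)

theorem equiv_of_linkable {K L : Type u} [Field K] [Field L] [Algebra K L]
    [FiniteDimensional K L] {n r : ℕ} (X : ProjVar K n r) (h : Linkable L n X.d)
    (x y : Fin (n + 1) → L) (hx : X.IsPt x) (hy : X.IsPt y) :
    ptCycle X x hx - ptCycle X y hy ∈ ratEquiv X := by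
  have hpt : ∀ {u : Fin (n + 1) → L}, X.IsPt u → (X.map (algebraMap K L)).IsPt u := by
    intro u hu
    refine ⟨hu.1, fun i => ?_⟩
    have h1 := hu.2 i
    rw [← MvPolynomial.aeval_map_algebraMap L u (X.form i)] at h1
    exact h1
  exact equiv_of_chain X x y hx hy (h (X.map (algebraMap K L)) rfl x y (hpt hx) (hpt hy))

/-- The local-global complex for zero-cycles, assembled from chains of rational curves. -/
theorem main_of_linkable {F k : Type u} [Field F] [Field k] [Algebra F k] [Finite F]
    (hk : IsCurveField F k) {n r : ℕ} (X : ProjVar k n r)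
    (hd : ∀ i, 0 < X.d i) (hn : ∑ i, X.d i ^ 2 ≤ n)
    (h1 : ∀ (L : Type u) [Field L] [Algebra k L] [FiniteDimensional k L], Linkable L n X.d)
    (h2 : ∀ (v : Place F k) (L : Type u) [Field L] [Algebra v.Completion L]
      [FiniteDimensional v.Completion L], Linkable L n X.d) :
    ∃ (x : Fin (n + 1) → k) (hx : X.IsPt x),
      (∀ c : CH0 X, c = CH0.deg X c • cls X x hx) ∧
      (∀ (v : Place F k) (c : CH0 (X.map v.emb)), c = CH0.deg _ c •
        cls (X.map v.emb) (fun i => v.emb (x i)) (isPt_map X v.emb hx)) ∧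
      ∀ z : ∀ v : Place F k, ℕ → CH0 (X.map v.emb), (∀ v, IsCompat (z v)) →
        (∀ (f : k) (m : ℕ), f ≠ 0 → 0 < m → ∑ᶠ v : Place F k, constPairing v (z v m) f m = 0) →
        ∃ c : ℕ → ℤ, IsCompat c ∧ ∀ (v : Place F k) (m : ℕ), 0 < m →
          ∃ g, c m • cls (X.map v.emb) (fun i => v.emb (x i)) (isPt_map X v.emb hx) - z v m =
            m • g :=
  main_ci_of_equiv hk X hd hn (fun L _ _ _ x y hx hy => equiv_of_linkable X (h1 L) x y hx hy)
    fun v L _ _ _ x y hx hy => equiv_of_linkable (X.map v.emb) (h2 v L) x y hx hy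

end ZC
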