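import Pool.Agent.Helper89.BC.Main0
import Pool.Agent.Helper74.BDX.Level0

/-!
# Zero-cycles on complete intersections over global function fields: the whole Tsen-Lang range
(Helper89, PROJECT BC)
-/

set_option autoImplicit false

open MvPolynomial

namespace ZC

universe u

theorem main_tsenLang {F k : Type u} [Field F] [Finite F] [Field k] [Algebra F k]
    (hk : IsCurveField F k) {n r : ℕ} (X : ProjVar k n r)
    (hd : ∀ i, 0 < X.d i) (hn : ∑ i, X.d i ^ 2 ≤ n) :
    ∃ (x : Fin (n + 1) → k) (hx : X.IsPt x),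
      (∀ c : CH0 X, c = CH0.deg X c • cls X x hx) ∧
      (∀ (v : Place F k) (c : CH0 (X.map v.emb)), c = CH0.deg _ c •
        cls (X.map v.emb) (fun i => v.emb (x i)) (isPt_map X v.emb hx)) ∧
      ∀ z : ∀ v : Place F k, ℕ → CH0 (X.map v.emb), (∀ v, IsCompat (z v)) →
        (∀ (f : k) (m : ℕ), f ≠ 0 → 0 < m → ∑ᶠ v : Place F k, constPairing v (z v m) f m = 0) →
        ∃ c : ℕ → ℤ, IsCompat c ∧ ∀ (v : Place F k) (m : ℕ), 0 < m →
          ∃ g, c m • cls (X.map v.emb) (fun i => v.emb (x i)) (isPt_map X v.emb hx) - z v m =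
            m • g :=
  main_tsenLang_of hk X hd hn fun _ hl κ _ _ => exists_chainZero κ hl X.d hd hn

end ZC
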