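import Pool.Agent.Helper89.BC.Main

/-!
# Zero-cycles on complete intersections over global function fields: the statement
(Helper89, PROJECT BC)
-/

set_option autoImplicit false

namespace ZC

universe u

/-- The Chow group of zero-cycles of `X` is freely generated by the class of the rational
point `x`. -/
def Gen {K : Type u} [Field K] {n r : ℕ} (X : ProjVar K n r) (x : Fin (n + 1) → K)
    (hx : X.IsPt x) : Prop :=
  ∀ c : CH0 X, c = CH0.deg X c • cls X x hx

/-- Every family `z` of local zero-cycle classes in the limits of `CH0 (X over k_v) / m` which is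
orthogonal to the Brauer classes of the cyclic algebras given by an element of `k` and a constant
extension of `k` is the image of the family of global classes `c m • x` for a compatible family of
integers `c m`. -/
def LocGlob (F : Type u) {k : Type u} [Field F] [Field k] [Algebra F k] {n r : ℕ}
    (X : ProjVar k n r) (x : Fin (n + 1) → k) (hx : X.IsPt x) : Prop :=
  ∀ z : ∀ v : Place F k, ℕ → CH0 (X.map v.emb), (∀ v, IsCompat (z v)) →
    (∀ (f : k) (m : ℕ), f ≠ 0 → 0 < m → ∑ᶠ v : Place F k, constPairing v (z v m) f m = 0) →
    ∃ c : ℕ → ℤ, IsCompat c ∧ ∀ (v : Place F k) (m : ℕ), 0 < m →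
      ∃ g, c m • cls (X.map v.emb) (fun i => v.emb (x i)) (isPt_map X v.emb hx) - z v m = m • g

end ZC
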